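import Pool.Agent.Lib.P55cbc6.Group

set_option autoImplicit false

/-!
# The non-commuting number of `UU_4(F_q)` is not a polynomial in `q`

For even `q` it equals `q ^ 3 + q ^ 2 - q + 1`, for odd `q` it is at most `q ^ 3 + q ^ 2 - q`.
-/

namespace Pool.Agent.Results.MP_55cbc6_al.NotPolynomial

open Pool.Agent.Lib.P55cbc6 Polynomial

/-- `ω(UU_n(F_q))` is a single polynomial for large `q`: the finite field `F` ranges over all finite
fields, in every characteristic, with at least `q₀` elements. -/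
def SinglePolynomialForLarge (n : ℕ) : Prop :=
  ∃ P : ℝ[X], ∃ q₀ : ℕ, ∀ (F : Type) [Field F] [Fintype F], q₀ ≤ Fintype.card F →
    (omega (UU n F) : ℝ) = P.eval (Fintype.card F : ℝ)

theorem result : ¬ SinglePolynomialForLarge 4 := by
  rintro ⟨P, q₀, hP⟩
  have galois : ∀ (p : ℕ) [Fact p.Prime] (k : ℕ), k ≠ 0 → q₀ ≤ p ^ k →
      ∃ (_ : Fintype (GaloisField p k)), Fintype.card (GaloisField p k) = p ^ k ∧
        (omega (UU 4 (GaloisField p k)) : ℝ) = P.eval ((p : ℝ) ^ k) := by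
    intro p _ k hk hq
    have hfin : Fintype (GaloisField p k) := Fintype.ofFinite _
    have hcard : Fintype.card (GaloisField p k) = p ^ k := by
      rw [← Nat.card_eq_fintype_card, GaloisField.card p k hk]
    refine ⟨hfin, hcard, ?_⟩
    have := hP (GaloisField p k) (by rw [hcard]; exact hq)
    rw [hcard] at this
    rw [this]
    push_cast
    rfl
  -- the polynomial is forced by the even values
  have heven : ∀ k : ℕ, q₀ + 1 ≤ k → P.eval ((2 : ℝ) ^ k) =
      ((2 : ℝ) ^ k) ^ 3 + ((2 : ℝ) ^ k) ^ 2 - (2 : ℝ) ^ k + 1 := by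
    intro k hk
    have : Fact (Nat.Prime 2) := ⟨Nat.prime_two⟩
    have hk2 : k < 2 ^ k := Nat.lt_two_pow_self
    obtain ⟨hfin, hcard, h1⟩ := galois 2 k (by omega) (by omega)
    have h2 := omega_even (F := GaloisField 2 k)
    rw [hcard] at h2
    rw [h2] at h1
    have h3 : (2 : ℕ) ^ k - 1 ≤ ((2 : ℕ) ^ k) ^ 3 := by
      calc (2 : ℕ) ^ k - 1 ≤ 2 ^ k := Nat.sub_le _ _
        _ ≤ (2 ^ k) ^ 3 := Nat.le_self_pow (by norm_num) _
    have h4 : 1 ≤ (2 : ℕ) ^ k := Nat.one_le_two_pow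
    push_cast [Nat.cast_sub h3, Nat.cast_sub h4] at h1
    rw [← h1]
    ring
  have hpoly : P = X ^ 3 + X ^ 2 - X + 1 := by
    rw [← sub_eq_zero]
    apply Polynomial.eq_zero_of_infinite_isRoot
    apply Set.Infinite.mono (s := Set.range (fun k : ℕ => (2 : ℝ) ^ (k + (q₀ + 1))))
    · rintro _ ⟨k, rfl⟩
      change IsRoot _ _
      rw [IsRoot.def, eval_sub, heven (k + (q₀ + 1)) (by omega)]
      simp only [eval_add, eval_sub, eval_pow, eval_X, eval_one]
      ring
    · apply Set.infinite_range_of_injective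
      intro k k' hkk
      simp only at hkk
      have := pow_right_injective₀ (by norm_num : (0 : ℝ) < 2) (by norm_num : (2 : ℝ) ≠ 1) hkk
      omega
  -- contradiction at a large power of three
  have : Fact (Nat.Prime 3) := ⟨Nat.prime_three⟩
  have hk3 : q₀ + 1 < 3 ^ (q₀ + 1) := Nat.lt_pow_self (by norm_num)
  obtain ⟨hfin, hcard, h1⟩ := galois 3 (q₀ + 1) (by omega) (by omega)
  have hodd : Odd (Fintype.card (GaloisField 3 (q₀ + 1))) := by
    rw [hcard]
    exact Odd.pow (by decide)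
  have h2 := omega_le_odd (F := GaloisField 3 (q₀ + 1)) hodd
  rw [hcard] at h2
  rw [hpoly] at h1
  simp only [eval_add, eval_sub, eval_pow, eval_X, eval_one] at h1
  set Q : ℕ := 3 ^ (q₀ + 1) with hQ
  have hQ1 : 1 ≤ Q := Nat.one_le_pow _ _ (by norm_num)
  have h3 : Q - 1 ≤ Q ^ 3 := (Nat.sub_le _ _).trans (Nat.le_self_pow (by norm_num) _)
  have h4 : 1 ≤ Q ^ 2 := Nat.one_le_pow _ _ hQ1
  have h5 : ((omega (UU 4 (GaloisField 3 (q₀ + 1))) : ℕ) : ℝ) ≤
      ((Q ^ 3 - (Q - 1) + (Q ^ 2 - 1) : ℕ) : ℝ) := by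
    exact_mod_cast h2
  push_cast [Nat.cast_sub h3, Nat.cast_sub h4, Nat.cast_sub hQ1] at h5
  rw [h1] at h5
  have h6 : (Q : ℝ) = (3 : ℝ) ^ (q₀ + 1) := by rw [hQ]; push_cast; rfl
  rw [h6] at h5
  push_cast at h5
  linarith

end Pool.Agent.Results.MP_55cbc6_al.NotPolynomial
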